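import Pool.Agent.Helper39.CQ.D4a
import Pool.Agent.Helper77.CQ.D1
import Pool.Agent.Helper7.CQ.Numer
import Pool.Agent.Helper76.CY.Fano

/-!
# CQ-D4b : descent of the component
-/

namespace Pool.Agent.Helper78.CQ

open MvPolynomial Pool.Agent.Helper76.CY Pool.Agent.Helper76.CQ
open Pool.Agent.Helper39.CQ (desc_mem)
open Pool.Agent.Helper77.CQ (chg_inv pl_chg_inv)
open Pool.Agent.Helper7.CQ (aeval_dch numer)

theorem map_inv {R T : Type*} [CommRing R] [CommRing T] (φ : R →+* T)
    (g : Matrix (Fin 10) (Fin 10) R) (hg : IsUnit g.det) : g⁻¹.map φ = (g.map φ)⁻¹ := by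
  symm
  refine Matrix.inv_eq_right_inv ?_
  rw [← Matrix.map_mul, Matrix.mul_nonsing_inv g hg]
  exact Matrix.map_one φ (map_zero φ) (map_one φ)

theorem isUnit_det_map {R T : Type*} [CommRing R] [CommRing T] (φ : R →+* T)
    (g : Matrix (Fin 10) (Fin 10) R) (hg : IsUnit g.det) : IsUnit (g.map φ).det := by
  have : (g.map φ).det = φ g.det := by
    rw [RingHom.map_det]; rfl
  rw [this]
  exact hg.map φ

theorem tri_frT {K L T : Type*} [CommRing K] [CommRing L] [CommRing T] [Algebra K L] [Algebra K T]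
    [Algebra L T] [IsScalarTower K L T] (D : Ten K) (g : Matrix (Fin 10) (Fin 10) L)
    (x y z : Fin 10 → T) :
    tri (frT D g : Ten L) x y z = tri (frT D (g.map (algebraMap L T)) : Ten T) x y z := by
  have h : ∀ i j k, algebraMap L T ((frT D g : Ten L) i j k)
      = (frT D (g.map (algebraMap L T)) : Ten T) i j k := by
    intro i j k
    simp only [frT]
    have := tri_map (D := D) (IsScalarTower.toAlgHom K L T) (g i) (g j) (g k)
    rw [IsScalarTower.coe_toAlgHom'] at this
    rw [this]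
    rfl
  simp only [tri]
  refine Finset.sum_congr rfl fun i _ => Finset.sum_congr rfl fun j _ =>
    Finset.sum_congr rfl fun k _ => ?_
  rw [h]
  rfl

theorem key {K L T E : Type} [Field K] [Field L] [CommRing T] [Field E]
    [Algebra K L] [Algebra K T] [Algebra L T] [IsScalarTower K L T] [Algebra K E] [Algebra L E]
    [IsScalarTower K L E] (D : Ten K)
    (g : Matrix (Fin 10) (Fin 10) L) (hg : g.det ≠ 0) (hg0 : dch g 0 ≠ 0) (y : Idx → E)
    (hyu : IsUnit (dch (g.map (algebraMap L E)) y))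
    (hy : ∀ G : MvPolynomial Idx L, aeval y G = 0 ↔
      G ∈ compIdeal (fanoIdeal (cubic (frT D g : Ten L))))
    (f : MvPolynomial Idx K) (hf : aeval (chg (g.map (algebraMap L E)) y) f = 0)
    (z : Idx → T) (hz : Pl D z)
    (hu : ∀ S : MvPolynomial Idx L, eval (chg g 0) S ≠ 0 → IsUnit (aeval z S)) :
    aeval z f = 0 := by
  have hgu : IsUnit g.det := hg.isUnit
  have hg0u : IsUnit (dch g 0) := hg0.isUnit
  obtain ⟨hz1, hz2⟩ := chg_inv g hgu 0 hg0u
  have hgi : IsUnit (g⁻¹).det := by
    rw [Matrix.det_nonsing_inv]; exact hgu.ringInverse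
  have hd0 : dch g⁻¹ (chg g 0) ≠ 0 := fun h => by
    rw [h, zero_mul] at hz1; exact zero_ne_one hz1
  set gT : Matrix (Fin 10) (Fin 10) T := g.map (algebraMap L T) with hgT
  have hgTu : IsUnit gT.det := isUnit_det_map _ g hgu
  have hgTi : gT⁻¹ = g⁻¹.map (algebraMap L T) := (map_inv _ g hgu).symm
  -- `dch gT⁻¹ z` is a unit
  have hev : ∀ (h : Matrix (Fin 10) (Fin 10) L) (u : Idx → L),
      eval u (dch (h.map (C : L →+* MvPolynomial Idx L)) X) = dch h u := by
    intro h u
    have := aeval_dch (L := L) (T := L) h u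
    rw [MvPolynomial.aeval_eq_eval] at this
    simpa using this
  have hdz : IsUnit (dch gT⁻¹ z) := by
    rw [hgTi, ← aeval_dch]
    exact hu _ (by rw [hev]; exact hd0)
  set y' : Idx → T := chg gT⁻¹ z with hy'
  have hpl : Pl (frT D gT : Ten T) y' := pl_chg_inv D gT hgTu z hdz hz
  have hpl' : ∀ i j k : Fin 3, tri (frT D g : Ten L) (row y' i) (row y' j) (row y' k) = 0 := by
    intro i j k
    rw [tri_frT]
    exact hpl i j k
  have hgTiu : IsUnit (gT⁻¹).det := by
    rw [Matrix.det_nonsing_inv]; exact hgTu.ringInverse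
  obtain ⟨hb1, hb2⟩ := chg_inv gT⁻¹ hgTiu z hdz
  rw [Matrix.nonsing_inv_nonsing_inv _ hgTu] at hb1 hb2
  -- the numerator of `f`
  obtain ⟨k, G, hG⟩ := numer (K := K) (L := L) g f
  have hG1 : aeval y G = 0 := by
    rw [hG E y hyu, hf, mul_zero]
  obtain ⟨s, hs0, hs⟩ := (hy G).1 hG1
  have hsG : aeval y' s * aeval y' G = 0 := by
    rw [← map_mul]
    exact aeval_fanoIdeal _ _ hpl' _ hs
  -- `s(y')` is a unit
  have hsu : IsUnit (aeval y' s) := by
    obtain ⟨k', H, hH⟩ := numer (K := L) (L := L) g⁻¹ s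
    have h1 : eval (chg g 0) H ≠ 0 := by
      have e1 : g⁻¹.map (algebraMap L L) = g⁻¹ := by ext; simp
      have this := hH L (chg g 0) (by rw [e1]; exact hd0.isUnit)
      rw [MvPolynomial.aeval_eq_eval, e1, hz2] at this
      have h0 : (aeval (0 : Idx → L)) s = constantCoeff s := by
        rw [MvPolynomial.aeval_zero]
        rfl
      have this2 : eval (chg g 0) H = dch g⁻¹ (chg g 0) ^ k' * constantCoeff s := by
        rw [← h0]; exact this
      rw [this2]
      exact mul_ne_zero (pow_ne_zero _ hd0) hs0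
    have h2 := hH T z (by rw [← hgTi]; exact hdz)
    rw [← hgTi, ← hy'] at h2
    have h3 := hu H h1
    rw [h2] at h3
    exact isUnit_of_mul_isUnit_right h3
  have hG2 : aeval y' G = 0 := by
    have := hsu.mul_right_eq_zero.1 hsG
    exact this
  have hdy' : IsUnit (dch gT y') := IsUnit.of_mul_eq_one _ hb1
  have h4 := hG T y' hdy'
  rw [hG2] at h4
  have h5 := (hdy'.pow k).mul_right_eq_zero.1 h4.symm
  rw [← hgT, hb2] at h5
  exact h5

/-- The local ring at the point `z₀` of the scheme with ideal `I`. -/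
theorem exists_local {R A : Type} [CommRing R] [Field A] (e : R →+* A) (I : Ideal R) :
    ∃ (T : Type) (_ : CommRing T) (φ : R →+* T), (∀ f ∈ I, φ f = 0) ∧
      (∀ S, e S ≠ 0 → IsUnit (φ S)) ∧ ∀ F, φ F = 0 → ∃ S, e S ≠ 0 ∧ S * F ∈ I := by
  haveI : (RingHom.ker e).IsPrime := RingHom.ker_isPrime e
  let M : Submonoid R := (RingHom.ker e).primeCompl
  let M' : Submonoid (R ⧸ I) := M.map (Ideal.Quotient.mk I)
  refine ⟨Localization M', inferInstance,
    (algebraMap (R ⧸ I) (Localization M')).comp (Ideal.Quotient.mk I), ?_, ?_, ?_⟩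
  · intro f hf
    rw [RingHom.comp_apply, Ideal.Quotient.eq_zero_iff_mem.2 hf, map_zero]
  · intro S hS
    exact IsLocalization.map_units (Localization M')
      (⟨_, Submonoid.mem_map_of_mem _ (show S ∈ M from hS)⟩ : M')
  · intro F hF
    rw [RingHom.comp_apply, IsLocalization.map_eq_zero_iff M'] at hF
    obtain ⟨⟨_, S, hS, rfl⟩, h1⟩ := hF
    refine ⟨S, hS, ?_⟩
    rw [← Ideal.Quotient.eq_zero_iff_mem, map_mul]
    exact h1

theorem desc_comp {K L E : Type} [Field K] [CharZero K] [Field L] [CharZero L] [Field E]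
    [Algebra K L] [Algebra K E] [Algebra L E] [IsScalarTower K L E] (D : Ten K)
    (h12 : ∀ i j k, D i j k = D j i k) (h23 : ∀ i j k, D i j k = D i k j)
    (g : Matrix (Fin 10) (Fin 10) L) (hg : g.det ≠ 0) (hg0 : dch g 0 ≠ 0) (y : Idx → E)
    (hyu : IsUnit (dch (g.map (algebraMap L E)) y))
    (hy : ∀ G : MvPolynomial Idx L, aeval y G = 0 ↔
      G ∈ compIdeal (fanoIdeal (cubic (frT D g : Ten L))))
    (Q : Ideal (MvPolynomial Idx K)) (hQ : Q.IsPrime) (hDQ : fanoIdeal (cubic D) ≤ Q)
    (hQ0 : ∀ f ∈ Q, aeval (chg g 0) f = 0) (f : MvPolynomial Idx K)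
    (hf : aeval (chg (g.map (algebraMap L E)) y) f = 0) : f ∈ Q := by
  obtain ⟨T, _, φ, hφI, hφu, hφ0⟩ := exists_local (eval (chg g 0) : MvPolynomial Idx L →+* L)
    ((fanoIdeal (cubic D)).map
      (MvPolynomial.map (algebraMap K L) : MvPolynomial Idx K →+* MvPolynomial Idx L))
  letI : Algebra L T := (φ.comp C).toAlgebra
  letI : Algebra K T := ((φ.comp C).comp (algebraMap K L)).toAlgebra
  haveI : IsScalarTower K L T := IsScalarTower.of_algebraMap_eq fun _ => rfl
  have e1 : ∀ S : MvPolynomial Idx L, aeval (fun q => φ (X q)) S = φ S := by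
    intro S
    have : ((aeval (fun q => φ (X q)) : MvPolynomial Idx L →ₐ[L] T) :
        MvPolynomial Idx L →+* T) = φ := by
      apply MvPolynomial.ringHom_ext
      · intro r
        rw [RingHom.coe_coe, algHom_C]
        rfl
      · intro i
        simp
    exact RingHom.congr_fun this S
  have e2 : ∀ h : MvPolynomial Idx K, aeval (fun q => φ (X q)) h
      = φ (MvPolynomial.map (algebraMap K L) h) := by
    intro h
    rw [← e1, MvPolynomial.aeval_map_algebraMap]
  have hz : Pl D (fun q => φ (X q)) := by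
    intro i j k
    have h1 := tri_mem_fanoIdeal D h12 h23 i j k
    have h2 : aeval (fun q => φ (X q)) (tri D (row X i) (row X j) (row X k) :
        MvPolynomial Idx K) = 0 := by
      rw [e2, hφI _ (Ideal.mem_map_of_mem _ h1)]
    rw [tri_map] at h2
    have h3 : ∀ i, (fun l => aeval (fun q => φ (X q)) (row (X : Idx → MvPolynomial Idx K) i l))
        = row (fun q => φ (X q)) i := by
      intro i
      funext l
      have := row_map ((aeval (fun q => φ (X q)) : MvPolynomial Idx K →ₐ[K] T) :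
        MvPolynomial Idx K →+* T) X i l
      simp only [RingHom.coe_coe, aeval_X] at this
      exact this
    rw [h3, h3, h3] at h2
    exact h2
  have h0 := key D g hg hg0 y hyu hy f hf _ hz (fun S hS => by rw [e1]; exact hφu S hS)
  rw [e2] at h0
  obtain ⟨S, hS, h1⟩ := hφ0 _ h0
  obtain ⟨s, hs, hsf⟩ := desc_mem (fanoIdeal (cubic D)) (chg g 0) f S hS h1
  rcases hQ.mem_or_mem (hDQ hsf) with h | h
  · exact absurd (hQ0 s h) hs
  · exact h

end Pool.Agent.Helper78.CQ
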